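import Pool.Agent.K3h53.UG.Stm2
import Pool.Agent.K3h74.EX.TopUpp

/-! UG project (helper53), second part, brick LBC: lower bound for exponential sums in small balls,
by elimination of the terms. -/

set_option autoImplicit false

namespace Pool.Agent.K3h97.UG

open MvPolynomial Filter Topology Metric Set
open Pool.Agent.K3h22.EX Pool.Agent.K3h53.UG

/-! ### Algebra: restriction to the line through `ζ` -/

/-- `q(T ζ)` as a polynomial in `T` -/
noncomputable def lv {s : ℕ} (ζ : Fin s → ℂ) : MvPolynomial (Fin s) ℂ →ₐ[ℂ] Polynomial ℂ :=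
  aeval fun i => Polynomial.C (ζ i) * Polynomial.X

lemma lv_of_homogeneous {s k : ℕ} (ζ : Fin s → ℂ) {φ : MvPolynomial (Fin s) ℂ}
    (hφ : φ.IsHomogeneous k) : lv ζ φ = Polynomial.C (eval ζ φ) * Polynomial.X ^ k := by
  unfold lv
  rw [aeval_def, eval₂_eq', eval_eq', map_sum, Finset.sum_mul]
  refine Finset.sum_congr rfl fun d hd => ?_
  have h1 : ∑ i, d i = k := by
    have := hφ (mem_support_iff.1 hd)
    rw [← this, Finsupp.weight_apply, Finsupp.sum_fintype _ _ (by simp)]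
    simp
  have h2 : ∏ i, (Polynomial.C (ζ i) * Polynomial.X) ^ d i =
      Polynomial.C (∏ i, ζ i ^ d i) * (Polynomial.X : Polynomial ℂ) ^ k := by
    simp_rw [mul_pow]
    rw [Finset.prod_mul_distrib, Finset.prod_pow_eq_pow_sum, h1, map_prod]
    congr 1
    exact Finset.prod_congr rfl fun i _ => by rw [map_pow]
  rw [h2, map_mul, Polynomial.algebraMap_eq]
  ring

lemma coeff_lv {s : ℕ} (ζ : Fin s → ℂ) (q : MvPolynomial (Fin s) ℂ) (j : ℕ) :
    (lv ζ q).coeff j = eval ζ (homogeneousComponent j q) := by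
  classical
  have h1 : lv ζ q = ∑ k ∈ Finset.range (q.totalDegree + 1),
      Polynomial.C (eval ζ (homogeneousComponent k q)) * Polynomial.X ^ k := by
    conv_lhs => rw [← sum_homogeneousComponent q]
    rw [map_sum]
    exact Finset.sum_congr rfl fun k _ =>
      lv_of_homogeneous ζ (homogeneousComponent_isHomogeneous k q)
  rw [h1, Polynomial.finsetSum_coeff]
  simp_rw [Polynomial.coeff_C_mul_X_pow]
  by_cases hj : j ∈ Finset.range (q.totalDegree + 1)
  · rw [Finset.sum_eq_single j]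
    · rw [if_pos rfl]
    · intro k _ hk
      rw [if_neg (Ne.symm hk)]
    · intro h; exact absurd hj h
  · rw [homogeneousComponent_eq_zero, map_zero]
    · refine Finset.sum_eq_zero fun k hk => ?_
      rw [if_neg]
      rintro rfl
      exact hj hk
    · rw [Finset.mem_range] at hj; omega

lemma natDegree_lv_le {s : ℕ} (ζ : Fin s → ℂ) (q : MvPolynomial (Fin s) ℂ) :
    (lv ζ q).natDegree ≤ q.totalDegree := by
  rw [Polynomial.natDegree_le_iff_coeff_eq_zero]
  intro j hj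
  rw [coeff_lv, homogeneousComponent_eq_zero _ _ hj, map_zero]

lemma natDegree_lv {s : ℕ} (ζ : Fin s → ℂ) (q : MvPolynomial (Fin s) ℂ)
    (h : eval ζ (top q) ≠ 0) : (lv ζ q).natDegree = q.totalDegree := by
  refine le_antisymm (natDegree_lv_le ζ q) (Polynomial.le_natDegree_of_ne_zero ?_)
  rw [coeff_lv]
  exact h

lemma lv_ne_zero {s : ℕ} (ζ : Fin s → ℂ) (q : MvPolynomial (Fin s) ℂ)
    (h : eval ζ (top q) ≠ 0) : lv ζ q ≠ 0 := by
  intro h0
  apply h
  unfold top
  rw [← coeff_lv, h0, Polynomial.coeff_zero]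

lemma top_ne_zero {s : ℕ} (ζ : Fin s → ℂ) (q : MvPolynomial (Fin s) ℂ) (N : ℕ)
    (h1 : q.totalDegree ≤ N) (h2 : (lv ζ q).coeff N ≠ 0) : eval ζ (top q) ≠ 0 := by
  have h3 : N ≤ q.totalDegree := by
    by_contra hcon
    push Not at hcon
    apply h2
    rw [coeff_lv, homogeneousComponent_eq_zero _ _ hcon, map_zero]
  have h4 : q.totalDegree = N := le_antisymm h1 h3
  unfold top
  rw [h4, ← coeff_lv]
  exact h2

/-- the derivative in the direction `ζ` -/
noncomputable def Dz {s : ℕ} (ζ : Fin s → ℂ) :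
    Derivation ℂ (MvPolynomial (Fin s) ℂ) (MvPolynomial (Fin s) ℂ) :=
  mkDerivation ℂ fun i => C (ζ i)

lemma Dz_X {s : ℕ} (ζ : Fin s → ℂ) (i : Fin s) : Dz ζ (X i) = C (ζ i) := mkDerivation_X _ _ _

lemma Dz_C {s : ℕ} (ζ : Fin s → ℂ) (a : ℂ) : Dz ζ (C a) = 0 := by
  rw [← algebraMap_eq]
  exact (Dz ζ).map_algebraMap a

lemma Dz_mul {s : ℕ} (ζ : Fin s → ℂ) (p q : MvPolynomial (Fin s) ℂ) :
    Dz ζ (p * q) = p * Dz ζ q + q * Dz ζ p := by
  rw [Derivation.leibniz, smul_eq_mul, smul_eq_mul]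

lemma Dz_eq {s : ℕ} (ζ : Fin s → ℂ) (q : MvPolynomial (Fin s) ℂ) :
    Dz ζ q = ∑ i, C (ζ i) * pderiv i q := by
  classical
  induction q using MvPolynomial.induction_on with
  | C a =>
    rw [Dz_C]
    simp only [pderiv_C, mul_zero, Finset.sum_const_zero]
  | add p q hp hq =>
    rw [map_add, hp, hq, ← Finset.sum_add_distrib]
    refine Finset.sum_congr rfl fun i _ => ?_
    rw [map_add, mul_add]
  | mul_X p i hp =>
    have h1 : ∀ j, C (ζ j) * pderiv j (p * X i) =
        p * (C (ζ j) * pderiv j (X i)) + X i * (C (ζ j) * pderiv j p) := by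
      intro j
      rw [Derivation.leibniz, smul_eq_mul, smul_eq_mul]
      ring
    rw [Dz_mul, Dz_X, hp, Finset.sum_congr rfl fun j _ => h1 j, Finset.sum_add_distrib,
      ← Finset.mul_sum, ← Finset.mul_sum]
    congr 2
    rw [Finset.sum_eq_single i]
    · rw [pderiv_X_self, mul_one]
    · intro j _ hij
      rw [pderiv_X_of_ne hij.symm, mul_zero]
    · intro h; exact absurd (Finset.mem_univ i) h

lemma lv_Dz {s : ℕ} (ζ : Fin s → ℂ) (q : MvPolynomial (Fin s) ℂ) :
    lv ζ (Dz ζ q) = Polynomial.derivative (lv ζ q) := by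
  induction q using MvPolynomial.induction_on with
  | C a =>
    rw [Dz_C, map_zero]
    unfold lv
    rw [aeval_C, Polynomial.algebraMap_eq, Polynomial.derivative_C]
  | add p q hp hq => rw [map_add, map_add, hp, hq, map_add, Polynomial.derivative_add]
  | mul_X p i hp =>
    rw [Dz_mul, Dz_X, map_add, map_mul, map_mul, map_mul, hp, Polynomial.derivative_mul]
    have h1 : lv ζ (X i) = Polynomial.C (ζ i) * Polynomial.X := by
      unfold lv; rw [aeval_X]
    have h2 : lv ζ (C (ζ i)) = Polynomial.C (ζ i) := by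
      unfold lv; rw [aeval_C, Polynomial.algebraMap_eq]
    rw [h1, h2, Polynomial.derivative_mul, Polynomial.derivative_C, Polynomial.derivative_X]
    ring

/-- the degree drops -/
lemma totalDegree_pderiv_le {s : ℕ} (P : MvPolynomial (Fin s) ℂ) (i : Fin s) :
    (pderiv i P).totalDegree ≤ P.totalDegree - 1 := by
  classical
  by_cases h : pderiv i P = 0
  · rw [h, totalDegree_zero]; exact Nat.zero_le _
  obtain ⟨m, hm, hmax⟩ := Finset.exists_mem_eq_sup _ (support_nonempty.2 h)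
    (fun s : Fin s →₀ ℕ => s.sum fun _ e => e)
  have h1 : (pderiv i P).totalDegree = m.sum fun _ e => e := hmax
  have h2 : coeff m (pderiv i P) ≠ 0 := mem_support_iff.1 hm
  rw [coeff_pderiv] at h2
  have h3 : coeff (m + Finsupp.single i 1) P ≠ 0 := fun h0 => h2 (by rw [h0]; simp)
  have h4 := le_totalDegree (mem_support_iff.2 h3)
  rw [Finsupp.sum_add_index' (by simp) (by simp)] at h4
  simp at h4
  rw [h1]
  have h5 : (m.sum fun _ e => e) = m.sum fun _ e => e := rfl
  have h6 : (m.sum fun _ e => e) + 1 ≤ P.totalDegree := by simpa [Finsupp.sum] using h4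
  omega

lemma totalDegree_Dz_le {s : ℕ} (ζ : Fin s → ℂ) (q : MvPolynomial (Fin s) ℂ) :
    (Dz ζ q).totalDegree ≤ q.totalDegree - 1 := by
  rw [Dz_eq]
  refine (totalDegree_finsetSum _ _).trans (Finset.sup_le fun i _ => ?_)
  refine (totalDegree_mul _ _).trans ?_
  rw [totalDegree_C, zero_add]
  exact totalDegree_pderiv_le q i

/-- the leading form of the new coefficient does not vanish at `ζ` -/
lemma top_elim {s : ℕ} (ζ : Fin s → ℂ) (Gl Gk h : MvPolynomial (Fin s) ℂ)
    (h1 : eval ζ (top Gl) ≠ 0) (h2 : eval ζ (top Gk) ≠ 0) (h3 : 0 < h.totalDegree)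
    (h4 : eval ζ (top h) ≠ 0) :
    eval ζ (top (Gl * Dz ζ Gk - Gk * Dz ζ Gl + Gl * Gk * Dz ζ h)) ≠ 0 := by
  set N : ℕ := Gl.totalDegree + Gk.totalDegree + (h.totalDegree - 1) with hN
  have key : ∀ A B : MvPolynomial (Fin s) ℂ, A.totalDegree + B.totalDegree ≤ N →
      (A * Dz ζ B).totalDegree ≤ N ∧ (0 < B.totalDegree ∨ True) := by
    intro A B hAB
    refine ⟨?_, Or.inr trivial⟩
    have e1 := totalDegree_mul A (Dz ζ B)
    have e2 := totalDegree_Dz_le ζ B
    omega
  apply top_ne_zero ζ _ N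
  · refine (totalDegree_add _ _).trans (max_le ((totalDegree_sub _ _).trans (max_le ?_ ?_)) ?_)
    · exact (key Gl Gk (by omega)).1
    · exact (key Gk Gl (by omega)).1
    · have e1 := totalDegree_mul (Gl * Gk) (Dz ζ h)
      have e2 := totalDegree_Dz_le ζ h
      have e3 := totalDegree_mul Gl Gk
      omega
  · have nA := natDegree_lv ζ Gl h1
    have nB := natDegree_lv ζ Gk h2
    have nH := natDegree_lv ζ h h4
    have zA := lv_ne_zero ζ Gl h1
    have zB := lv_ne_zero ζ Gk h2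
    -- the small terms
    have small : ∀ A B : Polynomial ℂ, A.natDegree + B.natDegree ≤ N →
        (A * Polynomial.derivative B).coeff N = 0 := by
      intro A B hAB
      by_cases hB : B.natDegree = 0
      · rw [Polynomial.eq_C_of_natDegree_eq_zero hB, Polynomial.derivative_C, mul_zero,
          Polynomial.coeff_zero]
      · apply Polynomial.coeff_eq_zero_of_natDegree_lt
        have e1 := Polynomial.natDegree_derivative_lt hB
        have e2 := Polynomial.natDegree_mul_le (p := A) (q := Polynomial.derivative B)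
        omega
    have hd : (Polynomial.derivative (lv ζ h)).degree = ((lv ζ h).natDegree - 1 : ℕ) :=
      Polynomial.degree_derivative (by rw [nH]; exact h3.ne')
    have hd0 : Polynomial.derivative (lv ζ h) ≠ 0 := by
      intro h0
      rw [h0, Polynomial.degree_zero] at hd
      exact WithBot.bot_ne_coe hd
    have hd1 : (Polynomial.derivative (lv ζ h)).natDegree = h.totalDegree - 1 := by
      rw [Polynomial.natDegree_eq_of_degree_eq_some hd, nH]
    have hmain : (lv ζ Gl * lv ζ Gk * Polynomial.derivative (lv ζ h)).coeff N ≠ 0 := by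
      have e1 : (lv ζ Gl * lv ζ Gk * Polynomial.derivative (lv ζ h)).natDegree = N := by
        rw [Polynomial.natDegree_mul (mul_ne_zero zA zB) hd0, Polynomial.natDegree_mul zA zB, nA,
          nB, hd1]
      rw [← e1]
      exact Polynomial.leadingCoeff_ne_zero.2 (mul_ne_zero (mul_ne_zero zA zB) hd0)
    rw [map_add, map_sub, map_mul, map_mul, map_mul, map_mul, lv_Dz, lv_Dz, lv_Dz,
      Polynomial.coeff_add, Polynomial.coeff_sub, small _ _ (by omega), small _ _ (by omega),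
      sub_zero, zero_add]
    exact hmain

/-! ### Analysis -/

/-- the rescaled point -/
lemma resc {s : ℕ} (ζ z : Fin s → ℂ) (R C₀ : ℝ) (hR : 1 ≤ R) (hz : ‖z - sc R ζ‖ ≤ C₀) :
    ∃ v : Fin s → ℂ, sc R v = z ∧ ‖v - ζ‖ ≤ C₀ / R ∧ ‖v‖ ≤ ‖ζ‖ + |C₀| := by
  have hR0 : (0 : ℝ) < R := by linarith
  have hRc : (R : ℂ) ≠ 0 := Complex.ofReal_ne_zero.2 hR0.ne'
  have h1 : ((R : ℂ)⁻¹ • z) - ζ = (R : ℂ)⁻¹ • (z - sc R ζ) := by
    funext i
    simp only [Pi.sub_apply, Pi.smul_apply, smul_eq_mul, sc]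
    field_simp
  have h2 : ‖((R : ℂ)⁻¹ • z) - ζ‖ ≤ C₀ / R := by
    rw [h1, norm_smul, norm_inv, Complex.norm_real, Real.norm_of_nonneg hR0.le, div_eq_inv_mul]
    gcongr
  refine ⟨(R : ℂ)⁻¹ • z, ?_, h2, ?_⟩
  · funext i
    simp only [Pi.smul_apply, smul_eq_mul, sc]
    field_simp
  · have h3 : C₀ / R ≤ |C₀| := by
      rw [div_le_iff₀ hR0]
      have := le_abs_self C₀
      have := abs_nonneg C₀
      nlinarith
    calc ‖(R : ℂ)⁻¹ • z‖ = ‖((R : ℂ)⁻¹ • z - ζ) + ζ‖ := by rw [sub_add_cancel]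
      _ ≤ ‖(R : ℂ)⁻¹ • z - ζ‖ + ‖ζ‖ := norm_add_le _ _
      _ ≤ _ := by linarith

lemma upp {s : ℕ} (q : MvPolynomial (Fin s) ℂ) (ζ : Fin s → ℂ) (C₀ : ℝ) :
    ∃ (C : ℕ) (R₀ : ℝ), 1 ≤ R₀ ∧ ∀ R : ℝ, R₀ ≤ R → ∀ z : Fin s → ℂ, ‖z - sc R ζ‖ ≤ C₀ →
      ‖eval z q‖ ≤ R ^ C := by
  obtain ⟨C, hC0, hC⟩ := Pool.Agent.K3h74.EX.growth q (‖ζ‖ + |C₀|)
  refine ⟨q.totalDegree + 1, C + 1, by linarith, fun R hR z hz => ?_⟩
  have hR1 : 1 ≤ R := by linarith
  obtain ⟨v, rfl, -, hv⟩ := resc ζ z R C₀ hR1 hz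
  refine (hC R hR1 v hv).trans ?_
  rw [pow_succ, mul_comm]
  gcongr
  linarith

lemma low {s : ℕ} (q : MvPolynomial (Fin s) ℂ) (ζ : Fin s → ℂ) (hq : eval ζ (top q) ≠ 0)
    (C₀ : ℝ) : ∃ R₀ : ℝ, 1 ≤ R₀ ∧ ∀ R : ℝ, R₀ ≤ R → ∀ z : Fin s → ℂ, ‖z - sc R ζ‖ ≤ C₀ →
      1 / R ≤ ‖eval z q‖ := by
  obtain ⟨C, hC0, hC⟩ := Pool.Agent.K3h74.EX.t_TOP s q (‖ζ‖ + |C₀|)
  set c : ℝ := ‖eval ζ (top q)‖ with hc
  have hc0 : 0 < c := norm_pos_iff.2 hq
  have hcont := (MvPolynomial.continuous_eval (top q)).continuousAt (x := ζ)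
  obtain ⟨δ, hδ, hδ'⟩ := Metric.continuousAt_iff.1 hcont (c / 2) (by positivity)
  refine ⟨1 + |C₀| / δ + 4 * C / c + 4 / c, ?_, fun R hR z hz => ?_⟩
  · have : 0 ≤ |C₀| / δ + 4 * C / c + 4 / c := by positivity
    linarith
  have e1 : 0 ≤ |C₀| / δ := by positivity
  have e2 : 0 ≤ 4 * C / c := by positivity
  have e3 : 0 < 4 / c := by positivity
  have hR1 : 1 ≤ R := by linarith
  have hR0 : 0 < R := by linarith
  obtain ⟨v, rfl, hv1, hv⟩ := resc ζ z R C₀ hR1 hz
  have h1 := hC R hR1 v hv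
  have h2 : dist v ζ < δ := by
    rw [dist_eq_norm]
    refine lt_of_le_of_lt hv1 ?_
    rw [div_lt_iff₀ hR0]
    have h3 : |C₀| / δ < R := by linarith
    rw [div_lt_iff₀ hδ] at h3
    have := le_abs_self C₀
    nlinarith
  have h3 := hδ' h2
  rw [dist_eq_norm] at h3
  have h4 : c / 2 < ‖eval v (top q)‖ := by
    have : c ≤ ‖eval ζ (top q) - eval v (top q)‖ + ‖eval v (top q)‖ := by
      rw [hc]
      calc ‖eval ζ (top q)‖ = ‖(eval ζ (top q) - eval v (top q)) + eval v (top q)‖ := by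
            rw [sub_add_cancel]
        _ ≤ _ := norm_add_le _ _
    rw [norm_sub_rev] at this
    linarith
  have h5 : C / R ≤ c / 4 := by
    rw [div_le_iff₀ hR0]
    have h6 : 4 * C / c ≤ R := by linarith
    rw [div_le_iff₀ hc0] at h6
    linarith
  have hpow : 1 ≤ R ^ q.totalDegree := one_le_pow₀ hR1
  have h6 : ‖(R : ℂ) ^ q.totalDegree * eval v (top q)‖ = R ^ q.totalDegree * ‖eval v (top q)‖ := by
    rw [norm_mul, norm_pow, Complex.norm_real, Real.norm_of_nonneg hR0.le]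
  have h7 : R ^ q.totalDegree * ‖eval v (top q)‖ ≤
      C * R ^ q.totalDegree / R + ‖eval (sc R v) q‖ := by
    rw [← h6]
    calc ‖(R : ℂ) ^ q.totalDegree * eval v (top q)‖
        = ‖((R : ℂ) ^ q.totalDegree * eval v (top q) - eval (sc R v) q) + eval (sc R v) q‖ := by
          rw [sub_add_cancel]
      _ ≤ ‖(R : ℂ) ^ q.totalDegree * eval v (top q) - eval (sc R v) q‖ + ‖eval (sc R v) q‖ :=
          norm_add_le _ _
      _ ≤ _ := by
          rw [norm_sub_rev]
          linarith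
  have h8 : C * R ^ q.totalDegree / R ≤ R ^ q.totalDegree * (c / 4) := by
    calc C * R ^ q.totalDegree / R = R ^ q.totalDegree * (C / R) := by ring
      _ ≤ _ := by gcongr
  have h9 : R ^ q.totalDegree * (c / 2) ≤ R ^ q.totalDegree * ‖eval v (top q)‖ := by
    gcongr
  have h10 : c / 4 ≤ ‖eval (sc R v) q‖ := by nlinarith
  refine le_trans ?_ h10
  rw [div_le_iff₀ hR0]
  have h11 : 4 / c ≤ R := by linarith
  rw [div_le_iff₀ hc0] at h11
  linarith

/-- the point `z + t ζ` -/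
def ln {s : ℕ} (z ζ : Fin s → ℂ) (t : ℂ) : Fin s → ℂ := fun i => z i + t * ζ i

lemma hasDeriv_eval {s : ℕ} (z ζ : Fin s → ℂ) (q : MvPolynomial (Fin s) ℂ) (t : ℂ) :
    HasDerivAt (fun t : ℂ => eval (ln z ζ t) q) (eval (ln z ζ t) (Dz ζ q)) t := by
  induction q using MvPolynomial.induction_on with
  | C a =>
    rw [Dz_C, map_zero]
    simp only [eval_C]
    exact hasDerivAt_const _ _
  | add p q hp hq =>
    rw [map_add, map_add]
    simp only [map_add]
    exact hp.add hq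
  | mul_X p i hp =>
    rw [Dz_mul, Dz_X, map_add, map_mul, map_mul, eval_C, eval_X]
    simp only [map_mul, eval_X]
    have h1 : HasDerivAt (fun t : ℂ => ln z ζ t i) (ζ i) t := by
      unfold ln
      simpa using ((hasDerivAt_id t).mul_const (ζ i)).const_add (z i)
    refine (hp.mul h1).congr_deriv ?_
    ring

lemma hasDeriv_sum {s : ℕ} {κ : Type} [Fintype κ] (q G : κ → MvPolynomial (Fin s) ℂ)
    (z ζ : Fin s → ℂ) (t : ℂ) :
    HasDerivAt (fun t : ℂ => ∑ k, eval (ln z ζ t) (G k) * Complex.exp (eval (ln z ζ t) (q k)))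
      (∑ k, (eval (ln z ζ t) (Dz ζ (G k)) + eval (ln z ζ t) (G k) * eval (ln z ζ t) (Dz ζ (q k))) *
        Complex.exp (eval (ln z ζ t) (q k))) t := by
  refine HasDerivAt.fun_sum fun k _ => ?_
  refine ((hasDeriv_eval z ζ (G k) t).mul (hasDeriv_eval z ζ (q k) t).cexp).congr_deriv ?_
  ring

/-- Cauchy's estimate for the derivative of an exponential sum -/
lemma cauchy {s : ℕ} {κ : Type} [Fintype κ] (q G : κ → MvPolynomial (Fin s) ℂ)
    (ζ z₀ z : Fin s → ℂ) (a : ℕ) (R M : ℝ) (hR : 2 ≤ R)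
    (hM : ∀ z : Fin s → ℂ, ‖z - z₀‖ ≤ 1 / R ^ a →
      ‖∑ k, eval z (G k) * Complex.exp (eval z (q k))‖ ≤ M)
    (hz : ‖z - z₀‖ ≤ 1 / R ^ (a + 1)) :
    ‖∑ k, (eval z (Dz ζ (G k)) + eval z (G k) * eval z (Dz ζ (q k))) *
        Complex.exp (eval z (q k))‖ ≤ M * (R ^ (a + 1) * (1 + ‖ζ‖)) := by
  have hR0 : 0 < R := by linarith
  set r : ℝ := 1 / (R ^ (a + 1) * (1 + ‖ζ‖)) with hr
  have hr0 : 0 < r := by positivity
  set g : ℂ → ℂ := fun t => ∑ k, eval (ln z ζ t) (G k) * Complex.exp (eval (ln z ζ t) (q k))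
    with hg
  have hdiff : Differentiable ℂ g := fun t => (hasDeriv_sum q G z ζ t).differentiableAt
  have h1 : ∀ t ∈ sphere (0 : ℂ) r, ‖g t‖ ≤ M := by
    intro t ht
    have ht' : ‖t‖ = r := by simpa using ht
    apply hM
    have h2 : ln z ζ t - z₀ = (z - z₀) + t • ζ := by
      funext i
      simp only [ln, Pi.sub_apply, Pi.add_apply, Pi.smul_apply, smul_eq_mul]
      ring
    have h3 : r * ‖ζ‖ ≤ 1 / R ^ (a + 1) := by
      rw [hr, div_mul_eq_mul_div, one_mul, div_le_div_iff₀ (by positivity) (by positivity)]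
      have := norm_nonneg ζ
      have : 0 < R ^ (a + 1) := by positivity
      nlinarith
    have h4 : 2 / R ^ (a + 1) ≤ 1 / R ^ a := by
      rw [div_le_div_iff₀ (by positivity) (by positivity), pow_succ]
      have : 0 < R ^ a := by positivity
      nlinarith
    calc ‖ln z ζ t - z₀‖ ≤ ‖z - z₀‖ + ‖t • ζ‖ := by rw [h2]; exact norm_add_le _ _
      _ = ‖z - z₀‖ + r * ‖ζ‖ := by rw [norm_smul, ht']
      _ ≤ 1 / R ^ (a + 1) + 1 / R ^ (a + 1) := add_le_add hz h3
      _ = 2 / R ^ (a + 1) := by ring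
      _ ≤ _ := h4
  have h2 := Complex.norm_deriv_le_of_forall_mem_sphere_norm_le hr0 hdiff.diffContOnCl h1
  rw [(hasDeriv_sum q G z ζ 0).deriv] at h2
  have h3 : ln z ζ 0 = z := by funext i; simp [ln]
  rw [h3] at h2
  refine h2.trans (le_of_eq ?_)
  rw [hr]
  field_simp

/-- the new coefficients -/
noncomputable def G' {s : ℕ} {κ : Type} (q G : κ → MvPolynomial (Fin s) ℂ) (ζ : Fin s → ℂ)
    (l k : κ) : MvPolynomial (Fin s) ℂ :=
  G l * Dz ζ (G k) - G k * Dz ζ (G l) + G l * G k * Dz ζ (q k - q l)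

lemma elim {s : ℕ} {κ : Type} [Fintype κ] [DecidableEq κ] (q G : κ → MvPolynomial (Fin s) ℂ)
    (ζ z : Fin s → ℂ) (l : κ) :
    ∑ k : {k // k ≠ l}, eval z (G' q G ζ l k) * Complex.exp (eval z (q k)) =
      eval z (G l) * (∑ k, (eval z (Dz ζ (G k)) + eval z (G k) * eval z (Dz ζ (q k))) *
        Complex.exp (eval z (q k))) -
      eval z (Dz ζ (G l) + G l * Dz ζ (q l)) *
        ∑ k, eval z (G k) * Complex.exp (eval z (q k)) := by
  have h1 : ∑ k : {k // k ≠ l}, eval z (G' q G ζ l k) * Complex.exp (eval z (q k)) =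
      ∑ k, eval z (G' q G ζ l k) * Complex.exp (eval z (q k)) := by
    rw [← Finset.sum_subtype (Finset.univ.erase l) (by simp)
      (fun k => eval z (G' q G ζ l k) * Complex.exp (eval z (q k)))]
    apply Finset.sum_erase
    simp [G']
  rw [h1, Finset.mul_sum, Finset.mul_sum, ← Finset.sum_sub_distrib]
  refine Finset.sum_congr rfl fun k _ => ?_
  unfold G'
  simp only [map_add, map_sub, map_mul]
  ring

theorem aux (n : ℕ) : ∀ (s : ℕ) (κ : Type) [Fintype κ], Fintype.card κ = n →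
  ∀ (q G : κ → MvPolynomial (Fin s) ℂ)
  (ζ : Fin s → ℂ), (∀ k, eval ζ (top (G k)) ≠ 0) →
  (∀ k l, k ≠ l → 0 < (q k - q l).totalDegree ∧ eval ζ (top (q k - q l)) ≠ 0) →
  ∀ (a : ℕ) (C₀ : ℝ), ∃ (C : ℕ) (R₀ : ℝ), 1 ≤ R₀ ∧ ∀ R : ℝ, R₀ ≤ R → ∀ z₀ : Fin s → ℂ,
  ‖z₀ - sc R ζ‖ ≤ C₀ → ∀ (k₀ : κ) (M : ℝ),
  (∀ z : Fin s → ℂ, ‖z - z₀‖ ≤ 1 / R ^ a →
    ‖∑ k, eval z (G k) * Complex.exp (eval z (q k))‖ ≤ M) →
  ‖Complex.exp (eval z₀ (q k₀))‖ ≤ R ^ C * M := by
  classical
  induction n with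
  | zero =>
    intro s κ _ hκ q G ζ _ _ a C₀
    rw [Fintype.card_eq_zero_iff] at hκ
    exact ⟨0, 1, le_rfl, fun R _ z₀ _ k₀ => (hκ.false k₀).elim⟩
  | succ n ih =>
    intro s κ _ hκ q G ζ hG hq a C₀
    by_cases hs : Subsingleton κ
    · have hne : Nonempty κ := Fintype.card_pos_iff.1 (by omega)
      obtain ⟨k1⟩ := hne
      obtain ⟨R₀, hR₀, h⟩ := low (G k1) ζ (hG k1) C₀
      refine ⟨1, R₀, hR₀, fun R hR z₀ hz₀ k₀ M hM => ?_⟩
      have hR0 : 0 < R := by linarith
      obtain rfl : k₀ = k1 := Subsingleton.elim _ _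
      have h1 := hM z₀ (by rw [sub_self, norm_zero]; positivity)
      rw [Fintype.sum_subsingleton _ k₀, norm_mul] at h1
      have h2 := h R hR z₀ hz₀
      have h3 : 1 / R * ‖Complex.exp (eval z₀ (q k₀))‖ ≤ M :=
        le_trans (by gcongr) h1
      rw [one_div, inv_mul_le_iff₀ hR0] at h3
      rw [pow_one]
      exact h3
    · -- elimination
      have hcard : ∀ l : κ, Fintype.card {k // k ≠ l} = n := by
        intro l
        rw [Fintype.card_subtype_compl, Fintype.card_subtype_eq, hκ]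
        rfl
      have hG' : ∀ l : κ, ∀ k : {k // k ≠ l}, eval ζ (top (G' q G ζ l k)) ≠ 0 := by
        intro l k
        exact top_elim ζ _ _ _ (hG l) (hG k) (hq k l k.2).1 (hq k l k.2).2
      choose C1 R1 hR1 h1 using fun l : κ => ih s {k // k ≠ l} (hcard l) (fun k => q k)
        (fun k => G' q G ζ l k) ζ (hG' l)
        (fun k k' hkk => hq k k' fun h => hkk (Subtype.ext h)) (a + 1) C₀
      choose C2 R2 hR2 h2 using fun l : κ => upp (G l) ζ (C₀ + 1)
      choose C3 R3 hR3 h3 using fun l : κ => upp (Dz ζ (G l) + G l * Dz ζ (q l)) ζ (C₀ + 1)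
      set S : ℕ := ∑ l, (C1 l + C2 l + C3 l) with hS
      set T : ℝ := ∑ l, (|R1 l| + |R2 l| + |R3 l|) with hT
      have hT0 : 0 ≤ T := Finset.sum_nonneg fun l _ => by positivity
      refine ⟨S + a + 3, 2 + ‖ζ‖ + T, by have := norm_nonneg ζ; linarith,
        fun R hR z₀ hz₀ k₀ M hM => ?_⟩
      have hζ0 := norm_nonneg ζ
      have hR2' : 2 ≤ R := by linarith
      have hR1' : 1 ≤ R := by linarith
      have hR0 : 0 < R := by linarith
      obtain ⟨l, hl⟩ : ∃ l, k₀ ≠ l := by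
        by_contra hcon
        push Not at hcon
        exact hs ⟨fun x y => (hcon x).symm.trans (hcon y)⟩
      have hTl : |R1 l| + |R2 l| + |R3 l| ≤ T :=
        Finset.single_le_sum (f := fun l => |R1 l| + |R2 l| + |R3 l|)
          (fun l _ => by positivity) (Finset.mem_univ l)
      have hSl : C1 l + C2 l + C3 l ≤ S :=
        Finset.single_le_sum (f := fun l => C1 l + C2 l + C3 l)
          (fun l _ => Nat.zero_le _) (Finset.mem_univ l)
      have a1 := le_abs_self (R1 l)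
      have a2 := le_abs_self (R2 l)
      have a3 := le_abs_self (R3 l)
      have b1 := abs_nonneg (R1 l)
      have b2 := abs_nonneg (R2 l)
      have b3 := abs_nonneg (R3 l)
      have hM0 : 0 ≤ M := (norm_nonneg _).trans (hM z₀ (by rw [sub_self, norm_zero]; positivity))
      have hpow1 : 1 / R ^ (a + 1) ≤ 1 / R ^ a :=
        one_div_le_one_div_of_le (by positivity) (pow_le_pow_right₀ hR1' (Nat.le_succ a))
      have hpow2 : 1 / R ^ (a + 1) ≤ 1 := by
        rw [div_le_one (by positivity)]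
        exact one_le_pow₀ hR1'
      have key := h1 l R (by linarith) z₀ hz₀ ⟨k₀, hl⟩ (R ^ (C2 l + C3 l + a + 3) * M) ?_
      · refine key.trans ?_
        rw [← mul_assoc, ← pow_add]
        refine mul_le_mul_of_nonneg_right (pow_le_pow_right₀ hR1' ?_) hM0
        omega
      · intro z hz
        have hz1 : ‖z - sc R ζ‖ ≤ C₀ + 1 := by
          calc ‖z - sc R ζ‖ = ‖(z₀ - sc R ζ) + (z - z₀)‖ := by
                congr 1; abel
            _ ≤ ‖z₀ - sc R ζ‖ + ‖z - z₀‖ := norm_add_le _ _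
            _ ≤ _ := by linarith
        rw [elim q G ζ z l]
        have c1 := cauchy q G ζ z₀ z a R M hR2' hM hz
        have c2 := hM z (hz.trans hpow1)
        have c3 := h2 l R (by linarith) z hz1
        have c4 := h3 l R (by linarith) z hz1
        refine (norm_sub_le _ _).trans ?_
        rw [norm_mul, norm_mul]
        have d1 : M * (R ^ (a + 1) * (1 + ‖ζ‖)) ≤ M * (R ^ (a + 1) * R) := by
          gcongr
          linarith
        have d2 : ‖eval z (G l)‖ * ‖∑ k, (eval z (Dz ζ (G k)) + eval z (G k) *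
            eval z (Dz ζ (q k))) * Complex.exp (eval z (q k))‖ ≤
            R ^ C2 l * (M * (R ^ (a + 1) * R)) :=
          mul_le_mul c3 (c1.trans d1) (norm_nonneg _) (by positivity)
        have d3 : ‖eval z (Dz ζ (G l) + G l * Dz ζ (q l))‖ *
            ‖∑ k, eval z (G k) * Complex.exp (eval z (q k))‖ ≤ R ^ C3 l * M :=
          mul_le_mul c4 c2 (norm_nonneg _) (by positivity)
        have d4 : R ^ C2 l * (M * (R ^ (a + 1) * R)) ≤ R ^ (C2 l + C3 l + a + 2) * M := by
          have : R ^ C2 l * (M * (R ^ (a + 1) * R)) = R ^ (C2 l + a + 2) * M := by ring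
          rw [this]
          exact mul_le_mul_of_nonneg_right (pow_le_pow_right₀ hR1' (by omega)) hM0
        have d5 : R ^ C3 l * M ≤ R ^ (C2 l + C3 l + a + 2) * M :=
          mul_le_mul_of_nonneg_right (pow_le_pow_right₀ hR1' (by omega)) hM0
        have d6 : 2 * (R ^ (C2 l + C3 l + a + 2) * M) ≤ R ^ (C2 l + C3 l + a + 3) * M := by
          have : R ^ (C2 l + C3 l + a + 3) * M = R * (R ^ (C2 l + C3 l + a + 2) * M) := by ring
          rw [this]
          have : 0 ≤ R ^ (C2 l + C3 l + a + 2) * M := by positivity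
          nlinarith
        linarith

theorem t_LBC : S_LBC := fun s κ _ q G ζ hG hq a C₀ => aux _ s κ rfl q G ζ hG hq a C₀

end Pool.Agent.K3h97.UG
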