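import Mathlib
import Pool.Agent.K3h53.UG.Stm4

/-! UG project (brick NORM): elimination on a hypersurface. -/

set_option autoImplicit false

namespace Pool.Agent.K3h97.UG

open MvPolynomial Pool.Agent.K3h53.UG

section

variable {s : ℕ} (k : Fin (s + 1)) (u : Fin (s + 1) → ℝ)

/-- the images of the variables under the linear change of coordinates -/
noncomputable def img (i : Fin (s + 1)) : Polynomial (MvPolynomial (Fin s) ℂ) :=
  Polynomial.C ((k.insertNth (0 : MvPolynomial (Fin s) ℂ) (fun j => X j) :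
      Fin (s + 1) → MvPolynomial (Fin s) ℂ) i) +
    Polynomial.C (C ((u i : ℝ) : ℂ)) * Polynomial.X

/-- linear change of coordinates -/
noncomputable def Ph : MvPolynomial (Fin (s + 1)) ℂ →+* Polynomial (MvPolynomial (Fin s) ℂ) :=
  eval₂Hom (Polynomial.C.comp C) (img k u)

/-- its inverse -/
noncomputable def Ps : Polynomial (MvPolynomial (Fin s) ℂ) →+* MvPolynomial (Fin (s + 1)) ℂ :=
  Polynomial.eval₂RingHom
    (eval₂Hom C (fun j => X (k.succAbove j) - C ((u (k.succAbove j) : ℝ) : ℂ) * X k)) (X k)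

variable {k u}

theorem Ph_C (a : ℂ) : Ph k u (C a) = Polynomial.C (C a) := by
  simp [Ph]

theorem Ph_X (i : Fin (s + 1)) : Ph k u (X i) = img k u i := by
  simp [Ph]

theorem img_k (hu : u k = 1) : img k u k = Polynomial.X := by
  simp [img, hu]

theorem img_sa (j : Fin s) : img k u (k.succAbove j) =
    Polynomial.C (X j) + Polynomial.C (C ((u (k.succAbove j) : ℝ) : ℂ)) * Polynomial.X := by
  simp [img]

theorem Ps_C (a : MvPolynomial (Fin s) ℂ) : Ps k u (Polynomial.C a) =
    eval₂Hom C (fun j => X (k.succAbove j) - C ((u (k.succAbove j) : ℝ) : ℂ) * X k) a := by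
  simp [Ps]

theorem Ps_X : Ps k u Polynomial.X = X k := by
  simp [Ps]

theorem PsPh (hu : u k = 1) (G : MvPolynomial (Fin (s + 1)) ℂ) : Ps k u (Ph k u G) = G := by
  have h : (Ps k u).comp (Ph k u) = RingHom.id _ := by
    apply MvPolynomial.ringHom_ext
    · intro a
      simp only [RingHom.comp_apply, Ph_C, Ps_C, RingHom.id_apply]
      simp
    · intro i
      simp only [RingHom.comp_apply, Ph_X, RingHom.id_apply]
      rcases Fin.eq_self_or_eq_succAbove k i with rfl | ⟨j, rfl⟩
      · rw [img_k hu, Ps_X]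
      · rw [img_sa, map_add, map_mul, Ps_C, Ps_C, Ps_X]
        simp
  exact RingHom.congr_fun h G

theorem PhPs (hu : u k = 1) (P : Polynomial (MvPolynomial (Fin s) ℂ)) :
    Ph k u (Ps k u P) = P := by
  have h : (Ph k u).comp (Ps k u) = RingHom.id _ := by
    apply Polynomial.ringHom_ext'
    · apply MvPolynomial.ringHom_ext
      · intro a
        simp only [RingHom.comp_apply, Ps_C, RingHom.id_apply]
        simp [Ph_C]
      · intro j
        simp only [RingHom.comp_apply, Ps_C, RingHom.id_apply]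
        simp only [coe_eval₂Hom, eval₂_X, map_sub, map_mul, Ph_X, Ph_C, img_sa, img_k hu]
        ring
    · simp only [RingHom.comp_apply, Ps_X, Ph_X, img_k hu, RingHom.id_apply]
  exact RingHom.congr_fun h P

/-- the isomorphism -/
noncomputable def eqv (hu : u k = 1) :
    MvPolynomial (Fin (s + 1)) ℂ ≃+* Polynomial (MvPolynomial (Fin s) ℂ) :=
  { Ph k u with
    invFun := Ps k u
    left_inv := fun G => PsPh hu G
    right_inv := fun P => PhPs hu P }

theorem eqv_apply (hu : u k = 1) (G : MvPolynomial (Fin (s + 1)) ℂ) : eqv hu G = Ph k u G := rfl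

theorem der (G : MvPolynomial (Fin (s + 1)) ℂ) :
    Polynomial.derivative (Ph k u G) = Ph k u (dd (fun i => ((u i : ℝ) : ℂ)) G) := by
  induction G using MvPolynomial.induction_on with
  | C a =>
    have h1 : dd (fun i => ((u i : ℝ) : ℂ)) (C a : MvPolynomial (Fin (s + 1)) ℂ) = 0 := by
      unfold dd
      simp
    rw [h1, Ph_C, map_zero, Polynomial.derivative_C]
  | add p q hp hq =>
    have h1 : dd (fun i => ((u i : ℝ) : ℂ)) (p + q) =
        dd (fun i => ((u i : ℝ) : ℂ)) p + dd (fun i => ((u i : ℝ) : ℂ)) q := by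
      unfold dd
      simp only [map_add, mul_add, Finset.sum_add_distrib]
    rw [h1, map_add (Ph k u), map_add (Ph k u), Polynomial.derivative_add, hp, hq]
  | mul_X p i hp =>
    have h1 : dd (fun i => ((u i : ℝ) : ℂ)) (p * X i) =
        dd (fun i => ((u i : ℝ) : ℂ)) p * X i + p * C ((u i : ℝ) : ℂ) := by
      unfold dd
      have h2 : ∀ j, C ((u j : ℝ) : ℂ) * pderiv j (p * X i) =
          C ((u j : ℝ) : ℂ) * pderiv j p * X i + p * (C ((u j : ℝ) : ℂ) * pderiv j (X i)) := by
        intro j
        rw [Derivation.leibniz, smul_eq_mul, smul_eq_mul]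
        ring
      rw [Finset.sum_congr rfl fun j _ => h2 j, Finset.sum_add_distrib, ← Finset.sum_mul,
        ← Finset.mul_sum]
      congr 2
      rw [Finset.sum_eq_single i]
      · rw [pderiv_X_self, mul_one]
      · intro j _ hj
        rw [pderiv_X_of_ne (Ne.symm hj), mul_zero]
      · intro h
        exact absurd (Finset.mem_univ i) h
    have h3 : Polynomial.derivative (img k u i) = Polynomial.C (C ((u i : ℝ) : ℂ)) := by
      simp [img]
    rw [h1, map_mul (Ph k u), map_add (Ph k u), map_mul (Ph k u), map_mul (Ph k u),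
      Polynomial.derivative_mul, hp, Ph_X, Ph_C, h3]

theorem ev (l : Fin s → ℂ) (θ : ℂ) (G : MvPolynomial (Fin (s + 1)) ℂ) :
    (Ph k u G).eval₂ (eval l) θ = eval (xp k u l θ) G := by
  have h : (Polynomial.eval₂RingHom (eval l) θ).comp (Ph k u) = eval (xp k u l θ) := by
    apply MvPolynomial.ringHom_ext
    · intro a
      simp only [RingHom.comp_apply, Ph_C]
      simp
    · intro i
      simp only [RingHom.comp_apply, Ph_X, eval_X]
      rcases Fin.eq_self_or_eq_succAbove k i with rfl | ⟨j, rfl⟩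
      · simp [img, xp]
      · rw [img_sa]
        simp [xp]
  exact RingHom.congr_fun h G

end

/-- **Brick NORM.** -/
theorem t_NORM : S_NORM := by
  intro s F k u hu hF hd G hG
  set f := Ph k u F with hf
  set g := Ph k u G with hg
  have hfp : Prime f := by
    have := (MulEquiv.prime_iff (eqv hu)).2 hF
    rwa [eqv_apply] at this
  have hfg : ¬ f ∣ g := by
    intro h
    apply hG
    have := map_dvd (Ps k u) h
    rwa [hf, hg, PsPh hu, PsPh hu] at this
  have hdeg : f.natDegree ≠ 0 := by
    intro h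
    apply hd
    have h1 := Polynomial.eq_C_of_natDegree_eq_zero h
    have h2 : Polynomial.derivative f = 0 := by rw [h1]; simp
    rw [hf, der] at h2
    have h3 := congrArg (Ps k u) h2
    rwa [PsPh hu, map_zero] at h3
  have : IsDomain (AdjoinRoot f) := AdjoinRoot.isDomain_of_prime hfp
  have hne : AdjoinRoot.mk f g ≠ 0 := by
    rw [Ne, AdjoinRoot.mk_eq_zero]
    exact hfg
  have hroot : IsAlgebraic (MvPolynomial (Fin s) ℂ) (AdjoinRoot.root f) :=
    ⟨f, hfp.ne_zero, by rw [AdjoinRoot.aeval_eq, AdjoinRoot.mk_self]⟩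
  have halg : IsAlgebraic (MvPolynomial (Fin s) ℂ) (AdjoinRoot.mk f g) := by
    rw [← AdjoinRoot.aeval_eq, ← Subalgebra.mem_algebraicClosure]
    have hle : Algebra.adjoin (MvPolynomial (Fin s) ℂ) {AdjoinRoot.root f} ≤
        Subalgebra.algebraicClosure (MvPolynomial (Fin s) ℂ) (AdjoinRoot f) := by
      apply Algebra.adjoin_le
      intro x hx
      rw [Set.mem_singleton_iff] at hx
      rw [hx]
      exact hroot
    exact hle (Polynomial.aeval_mem_adjoin_singleton _ _)
  obtain ⟨h, hh, q, hq⟩ := halg.exists_nonzero_dvd (mem_nonZeroDivisors_of_ne_zero hne)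
  obtain ⟨g2, rfl⟩ := AdjoinRoot.mk_surjective q
  have hdvd : f ∣ Polynomial.C h - g * g2 := by
    rw [← AdjoinRoot.mk_eq_zero, map_sub, map_mul, sub_eq_zero, ← hq]
    rfl
  obtain ⟨w, hw⟩ := hdvd
  refine ⟨h, Ps k u g2, hh, fun l θ hl => ?_⟩
  rw [← ev, ← ev, PhPs hu, ← hg, ← Polynomial.eval₂_mul]
  have h1 : g * g2 = Polynomial.C h - f * w := by rw [← hw]; ring
  rw [h1, Polynomial.eval₂_sub, Polynomial.eval₂_mul, Polynomial.eval₂_C, hf, ev, hl, zero_mul,
    sub_zero]

end Pool.Agent.K3h97.UG
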